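import Pool.Agent.KIL.StmtsB

/-! Row VBR of tank KIL (helper20): a normal round of the phase of the pre-kills. -/

set_option autoImplicit false

open MeasureTheory ProbabilityTheory Function Filter

open scoped ENNReal BigOperators Topology NNReal Matrix

noncomputable section

namespace Pool.Agent.KIL.H20

open Pool.Agent.ANP (Cfg Att gm)
open Pool.Agent.LE.QF (HJ HM gG LL dC)

theorem cu_mono {x y : ℝ} (h : x ≤ y) : cu x ≤ cu y := by
  unfold cu
  have h1 : max (1 - y) 0 ≤ max (1 - x) 0 := max_le_max (by linarith) le_rfl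
  have h2 : max (1 - y) 0 ^ 3 ≤ max (1 - x) 0 ^ 3 :=
    pow_le_pow_left₀ (le_max_right _ _) h1 3
  linarith

theorem cu_nonneg {x : ℝ} (h : 0 ≤ x) : 0 ≤ cu x := by
  have h1 := cu_mono h
  have h2 : cu 0 = 0 := by
    unfold cu
    norm_num
  rwa [h2] at h1

theorem cu_le_one (x : ℝ) : cu x ≤ 1 := by
  unfold cu
  have h2 : 0 ≤ max (1 - x) 0 ^ 3 := pow_nonneg (le_max_right _ _) 3
  linarith

theorem cu_cont : Continuous cu := by
  unfold cu
  exact continuous_const.sub (((continuous_const.sub continuous_id).max continuous_const).pow 3)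

theorem mix {c c' φ b : ℝ} (hc : c ≤ c') (hφ : φ ≤ b) :
    (1 - c) * φ + b * c ≤ (1 - c') * φ + b * c' := by
  nlinarith [mul_nonneg (sub_nonneg.2 hc) (sub_nonneg.2 hφ)]

theorem aaf {X : Type} [Fintype X] [DecidableEq X] {κ : X → ℝ} {G : Matrix X X ℂ} {o : X}
    (hκ : ∀ v, 0 ≤ κ v) (hg : 0 < gam κ G o) :
    (∀ v, 0 ≤ aa κ G o v) ∧ ∀ s : Finset X, o ∉ s → ∑ v ∈ s, aa κ G o v ≤ 1 := by
  have hn : ∀ v, 0 ≤ nn κ G o v := fun v => mul_nonneg (hκ v) (by positivity)
  refine ⟨fun v => div_nonneg (hn v) hg.le, fun s hs => ?_⟩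
  have h1 : ∑ v ∈ s, aa κ G o v = (∑ v ∈ s, nn κ G o v) / gam κ G o := by
    rw [Finset.sum_div]
    rfl
  rw [h1, div_le_one hg]
  refine Finset.sum_le_sum_of_subset_of_nonneg (fun v hv => ?_) fun v _ _ => hn v
  rw [Finset.mem_erase]
  refine ⟨?_, Finset.mem_univ v⟩
  rintro rfl
  exact hs hv

theorem vbr (udr : UdrStmt) (ugd : UgdStmt) (rcm : RcmStmt) : VbrStmt := by
  intro ε₀ lam C B hl hl1 hC hB hbody X iX dX Y T₀ T P K D Gm kp S r hOk hε hβ hR hD hr hρ hK hS
    hrun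
  obtain ⟨hsR, hs⟩ := hOk.sR
  obtain ⟨ht0, ht01, ht1, hρ0, hρ1, hε0, hjL, hθK⟩ := hOk.po2
  obtain ⟨he1, he2, he3⟩ := hOk.e1
  have ht1' : 0 < P.t₁ := ht0.trans_le ht01
  have hoR : P.o ∉ P.R := Finset.disjoint_left.1 hOk.QR hOk.oQ
  have hDR : D ⊆ P.R \ K := fun v hv => ((hD v).1 hv).1
  have hoRK : P.o ∉ P.R \ K := fun h => hoR (Finset.mem_sdiff.1 h).1
  have hoD : P.o ∉ D := fun h => hoRK (hDR h)
  -- the point at the time `0`
  obtain ⟨hG0, hk0⟩ := hrun.st
  have hκ0 : ∀ v, 0 ≤ Y.k T v := by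
    intro v
    rw [← hk0]
    exact (hrun.pos 0 le_rfl hs.le v).1.le
  have hgam0 : 0 < gam (Y.k T) (Y.G T) P.o := by
    have h1 := hrun.gm (0, 0) le_rfl hs.le P.o
    rwa [hG0, hk0] at h1
  obtain ⟨haa0, hsum0⟩ := aaf hκ0 hgam0
  have hr1 : r ≤ 1 := by
    rw [hr]
    exact hsum0 D hoD
  have hDc : P.t₁ * D.card ≤ r := by
    rw [hr]
    have h1 := Finset.card_nsmul_le_sum D (fun v => aa (Y.k T) (Y.G T) P.o v) P.t₁
      fun v hv => ((hD v).1 hv).2
    rw [nsmul_eq_mul] at h1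
    linarith
  have hKD : ((K ∪ D).card : ℝ) ≤ (K.card : ℝ) + D.card := by
    exact_mod_cast Finset.card_union_le K D
  have hc2 : P.t₁ * (K ∪ D).card ≤ P.S₀ - (S - r) := by
    have h1 : P.t₁ * (K ∪ D).card ≤ P.t₁ * ((K.card : ℝ) + D.card) :=
      mul_le_mul_of_nonneg_left hKD ht1'.le
    rw [mul_add] at h1
    linarith
  have hc1 : ((K ∪ D).card : ℝ) ≤ P.nK := by
    refine le_trans ?_ hOk.nK
    rw [le_div_iff₀ ht1', mul_comm]
    linarith
  refine ⟨hc1, hc2, ?_⟩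
  obtain ⟨hu1, hu2, hu3⟩ := udr X Y T₀ T P K D Gm kp hOk.toOk0 hR hDR hc1 hrun
  obtain ⟨-, -, hcont⟩ := rcm X Y T₀ T P K D Gm kp hR hDR hs hrun
  -- the numbers
  obtain ⟨β, hβd⟩ : ∃ β : ℝ, β = C * P.δ ^ 2 *
    Real.sqrt (1 / P.t₀ * Real.sqrt (1 / P.t₀ * P.Lc)) / P.g₀ := ⟨_, rfl⟩
  rw [← hβd] at hβ
  obtain ⟨m, hm⟩ : ∃ m : ℝ, m = Real.exp (-(lam * (S - r) / 20)) / 2 := ⟨_, rfl⟩
  have hm0 : 0 < m := by
    rw [hm]
    positivity
  have hexp : Real.exp (1 / 10) ≤ 2 := by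
    have h1 : (9 / 10 : ℝ) ≤ Real.exp (-(1 / 10)) := by
      have := Real.add_one_le_exp (-(1 / 10 : ℝ))
      linarith
    rw [Real.exp_neg] at h1
    have h2 : 0 < Real.exp (1 / 10) := Real.exp_pos _
    have h3 : Real.exp (1 / 10) * (9 / 10) ≤ 1 := by
      calc Real.exp (1 / 10) * (9 / 10) ≤ Real.exp (1 / 10) * (Real.exp (1 / 10))⁻¹ :=
            mul_le_mul_of_nonneg_left h1 h2.le
        _ = 1 := mul_inv_cancel₀ h2.ne'
    linarith
  have hlr : lam * r ≤ 1 := by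
    have := mul_le_mul hl1 hr1 (by linarith) (by norm_num : (0 : ℝ) ≤ 1)
    linarith
  have hlS : 0 < lam * S := mul_pos hl hS
  have hlρ : lam * P.ρ ≤ lam * r := mul_le_mul_of_nonneg_left hρ hl.le
  have hmβ : m * Real.exp (β * P.s) ≤ 1 := by
    have h1 : m * Real.exp (β * P.s) = Real.exp (-(lam * (S - r) / 20) + β * P.s) / 2 := by
      rw [Real.exp_add, hm]
      ring
    have h2 : -(lam * (S - r) / 20) + β * P.s ≤ 1 / 10 := by
      have : lam * (S - r) = lam * S - lam * r := by ring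
      rw [this]
      linarith
    rw [h1]
    have h3 := (Real.exp_le_exp.2 h2).trans hexp
    linarith
  have h2m : 2 * m ≤ 2 := by
    have h1 : -(lam * (S - r) / 20) ≤ 1 / 10 := by
      have : lam * (S - r) = lam * S - lam * r := by ring
      rw [this]
      linarith
    have h3 := (Real.exp_le_exp.2 h1).trans hexp
    rw [hm]
    linarith
  have hbt : 0 ≤ P.bt := by
    unfold Pha.bt Pha.NM
    positivity
  -- the theorem on one round
  have key := hbody D X (fun c : D => (c : X)) Gm kp (fun x => (P.mb x).im)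
    (fun q c => Gm q c c - P.mb c) (P.R \ K) P.o P.s P.κs P.g₀ P.δ P.Lc P.t₀ P.t₁ P.ε β m P.cut
    (fun q => P.ur K D (kp q.1) (Gm q) q.1) (fun _ => P.bt / (3 * P.s)) hs ht0 ht01 ht1 hε0 hε
    hOk.cut continuous_const (fun _ => by positivity) ?_ he1 he2 hβd hm0.le hmβ ?_
    (fun c => hDR c.2) hoRK
  rotate_left
  · -- the number of the killed sites
    rw [Fintype.card_coe]
    have h1 : (D.card : ℝ) ≤ 1 / P.t₁ := by
      rw [le_div_iff₀ ht1', mul_comm]
      linarith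
    exact h1.trans (one_div_le_one_div_of_le ht0 ht01)
  · intro q hq0 hqs
    obtain ⟨h1, h2, h3⟩ := hu1 q hq0 hqs
    refine ⟨hrun.jets q hq0 hqs, fun v => (hrun.pos q.1 hq0 hqs v).1.le, hrun.gm q hq0 hqs P.o,
      h1, h2, fun h4 => ⟨h3 h4, ?_⟩⟩
    exact (ugd X Y T₀ T P K D Gm kp q hOk hR hDR hc1 hrun hq0 hqs h4).1
  -- the sets
  have hset : (P.R \ K).filter (fun v => ∀ c : D, (c : X) ≠ v) = P.R \ (K ∪ D) := by
    ext v
    rw [Finset.mem_filter, Finset.mem_sdiff, Finset.mem_sdiff, Finset.mem_union]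
    constructor
    · rintro ⟨⟨h1, h2⟩, h3⟩
      refine ⟨h1, ?_⟩
      rintro (h4 | h4)
      · exact h2 h4
      · exact h3 ⟨v, h4⟩ rfl
    · rintro ⟨h1, h2⟩
      refine ⟨⟨h1, fun h3 => h2 (Or.inl h3)⟩, ?_⟩
      rintro ⟨c, hc⟩ rfl
      exact h2 (Or.inr hc)
  -- the start
  obtain ⟨y0, hy0⟩ : ∃ y0 : ℝ, y0 = P.y K (Y.k T) (Y.G T) := ⟨_, rfl⟩
  have hy01 : y0 ≤ 1 := by
    rw [hy0]
    refine le_trans (Finset.sum_le_sum fun v _ => (hOk.cut.bd _ (haa0 v)).2) ?_
    exact hsum0 _ hoRK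
  have hym : ym (fun c : D => (c : X)) P.cut (P.R \ K) (Y.k T) (Y.G T) P.o = y0 := by
    unfold ym
    rw [hset, hy0]
    unfold Pha.y
    have h1 : ∑ c : D, aa (Y.k T) (Y.G T) P.o (c : X) =
        ∑ v ∈ D, P.cut (aa (Y.k T) (Y.G T) P.o v) := by
      rw [Finset.sum_coe_sort D fun v => aa (Y.k T) (Y.G T) P.o v]
      exact Finset.sum_congr rfl fun v hv => (hOk.cut.hi _ ((hD v).1 hv).2).symm
    rw [h1]
    have h2 : P.R \ K = D ∪ (P.R \ (K ∪ D)) := by
      ext v
      rw [Finset.mem_union, Finset.mem_sdiff, Finset.mem_sdiff, Finset.mem_union]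
      constructor
      · rintro ⟨h1, h2⟩
        by_cases h3 : v ∈ D
        · exact Or.inl h3
        · exact Or.inr ⟨h1, fun h => h.elim h2 h3⟩
      · rintro (h1 | ⟨h1, h2⟩)
        · exact Finset.mem_sdiff.1 (hDR h1)
        · exact ⟨h1, fun h => h2 (Or.inl h)⟩
    rw [h2]
    rw [Finset.sum_union]
    rw [Finset.disjoint_left]
    intro v h3 h4
    exact (Finset.mem_sdiff.1 h4).2 (Finset.mem_union_right _ h3)
  have hPh : Ph (fun c : D => (c : X)) P.cut (P.R \ K) (Y.k T) (Y.G T) P.o =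
      3 * y0 - y0 ^ 2 - r / 10 := by
    unfold Ph
    rw [hym, Finset.sum_coe_sort D fun v => aa (Y.k T) (Y.G T) P.o v, ← hr]
  have hq0 : 3 * y0 - y0 ^ 2 - 2 ≤ 0 := by nlinarith
  obtain ⟨φ0, hφ0⟩ : ∃ φ0 : ℝ, φ0 = Real.exp (lam * (3 * y0 - y0 ^ 2 - 2) - lam * S / 20) :=
    ⟨_, rfl⟩
  have hφ01 : φ0 ≤ 1 := by
    rw [hφ0, Real.exp_le_one_iff]
    have := mul_nonpos_of_nonneg_of_nonpos hl.le hq0
    linarith
  have hφp : 0 < φ0 := by
    rw [hφ0]
    exact Real.exp_pos _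
  have hstart : (1 - cu (P.ur K D (kp 0) (Gm (0, 0)) 0)) *
      (m * Real.exp (β * P.s + lam * (Ph (fun c : D => (c : X)) P.cut (P.R \ K) (kp 0)
        (Gm (0, 0)) P.o - 2))) + B * cu (P.ur K D (kp 0) (Gm (0, 0)) 0) ≤
      ((1 - cu (P.u K (Y.k T) (Y.G T))) * φ0 + 2 * B * cu (P.u K (Y.k T) (Y.G T))) / 2 := by
    have h1 : m * Real.exp (β * P.s + lam * (Ph (fun c : D => (c : X)) P.cut (P.R \ K) (kp 0)
        (Gm (0, 0)) P.o - 2)) ≤ φ0 / 2 := by
      rw [hG0, hk0, hPh, hm, div_mul_eq_mul_div, ← Real.exp_add, hφ0]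
      refine div_le_div_of_nonneg_right (Real.exp_le_exp.2 ?_) (by norm_num)
      have : lam * (3 * y0 - y0 ^ 2 - r / 10 - 2) =
          lam * (3 * y0 - y0 ^ 2 - 2) - lam * r / 10 := by ring
      rw [this]
      have h5 : lam * (S - r) = lam * S - lam * r := by ring
      rw [h5]
      linarith
    have h2 : 0 ≤ 1 - cu (P.ur K D (kp 0) (Gm (0, 0)) 0) := by
      linarith [cu_le_one (P.ur K D (kp 0) (Gm (0, 0)) 0)]
    have h3 := mul_le_mul_of_nonneg_left h1 h2
    have h4 := mix (cu_mono hu2) (show φ0 / 2 ≤ B by linarith)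
    linarith
  -- the end
  obtain ⟨W, hW⟩ : ∃ W : (D → ℝ) → ℝ, W = fun V => P.ur K D (kp P.s) (Gm (P.s, V)) P.s :=
    ⟨_, rfl⟩
  obtain ⟨A, hA⟩ : ∃ A : (D → ℝ) → ℝ, A = fun V => yn (fun c : D => (c : X)) P.cut (P.R \ K)
    (kp P.s) (Gm (P.s, V)) P.o := ⟨_, rfl⟩
  obtain ⟨F, hF⟩ : ∃ F : (D → ℝ) → ℝ, F = fun V => (1 - cu (W V)) *
    (m * Real.exp (lam * (3 * A V - A V ^ 2 - 2))) + B * cu (W V) := ⟨_, rfl⟩
  have hκs : ∀ v, 0 ≤ kp P.s v := fun v => (hrun.pos P.s hs.le le_rfl v).1.le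
  have hgams : ∀ V : D → ℝ, 0 < gam (kp P.s) (Gm (P.s, V)) P.o :=
    fun V => hrun.gm (P.s, V) hs.le le_rfl P.o
  have hAV : ∀ V, 0 ≤ A V ∧ A V ≤ 1 := by
    intro V
    obtain ⟨h1, h2⟩ := aaf hκs (hgams V)
    rw [hA]
    refine ⟨Finset.sum_nonneg fun v _ => (hOk.cut.bd _ (h1 v)).1, ?_⟩
    refine le_trans (Finset.sum_le_sum fun v _ => (hOk.cut.bd _ (h1 v)).2) ?_
    exact h2 _ fun h => hoRK (Finset.mem_filter.1 h).1
  have hWV : ∀ V, 0 ≤ W V := by
    intro V
    rw [hW]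
    exact (hu1 (P.s, V) hs.le le_rfl).1
  have hφV : ∀ V, 0 < Real.exp (lam * (3 * A V - A V ^ 2 - 2)) ∧
      Real.exp (lam * (3 * A V - A V ^ 2 - 2)) ≤ 1 := by
    intro V
    refine ⟨Real.exp_pos _, ?_⟩
    rw [Real.exp_le_one_iff]
    have h1 := hAV V
    refine mul_nonpos_of_nonneg_of_nonpos hl.le ?_
    nlinarith
  have hF0 : ∀ V, 0 ≤ F V := by
    intro V
    rw [hF]
    have h1 : 0 ≤ 1 - cu (W V) := by linarith [cu_le_one (W V)]
    have h2 := cu_nonneg (hWV V)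
    have h3 := (hφV V).1.le
    positivity
  have hFb : ∀ V, F V ≤ m + B := by
    intro V
    rw [hF]
    have h1 : 0 ≤ 1 - cu (W V) := by linarith [cu_le_one (W V)]
    have h2 := cu_nonneg (hWV V)
    have h3 : (1 - cu (W V)) * (m * Real.exp (lam * (3 * A V - A V ^ 2 - 2))) ≤ 1 * (m * 1) :=
      mul_le_mul (by linarith) (mul_le_mul_of_nonneg_left (hφV V).2 hm0.le)
        (mul_nonneg hm0.le (hφV V).1.le) (by norm_num)
    have h4 : B * cu (W V) ≤ B * 1 := mul_le_mul_of_nonneg_left (cu_le_one _) (by linarith)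
    linarith
  have hWc : Continuous W := by
    rw [hW]
    unfold Pha.ur pm mm
    refine Continuous.add (continuous_finsetSum _ fun x _ => continuous_finsetSum _ fun y _ => ?_)
      (continuous_finsetSum _ fun x _ => ?_)
    · refine continuous_const.mul (Continuous.pow (Continuous.div_const ?_ _) _)
      exact continuous_const.mul (((hcont x y).sub continuous_const).norm.pow 2)
    · refine continuous_const.mul (Continuous.pow (Continuous.div_const ?_ _) _)
      refine continuous_finsetSum _ fun y _ => ?_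
      exact continuous_const.mul (((hcont x y).sub continuous_const).norm.pow 2)
  have hAc : Continuous A := by
    rw [hA]
    unfold yn aa nn
    refine continuous_finsetSum _ fun v _ => hOk.cut.sm.continuous.comp ?_
    refine Continuous.div (continuous_const.mul ((hcont v P.o).norm.pow 2)) ?_
      fun V => (hgams V).ne'
    unfold gam nn
    exact continuous_finsetSum _ fun w _ => continuous_const.mul ((hcont w P.o).norm.pow 2)
  have hFc : Continuous F := by
    rw [hF]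
    refine Continuous.add (Continuous.mul (continuous_const.sub (cu_cont.comp hWc)) ?_)
      (continuous_const.mul (cu_cont.comp hWc))
    refine continuous_const.mul (Real.continuous_exp.comp (continuous_const.mul ?_))
    exact ((continuous_const.mul hAc).sub (hAc.pow 2)).sub continuous_const
  have hFi : Integrable F (Measure.pi fun _ : D => gaussianReal 0 P.s.toNNReal) := by
    refine Integrable.of_bound hFc.aestronglyMeasurable (m + B) (Eventually.of_forall fun V => ?_)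
    rw [Real.norm_eq_abs, abs_of_nonneg (hF0 V)]
    exact hFb V
  -- the value at the end is at most `2 exp (2 lam) F`
  have hend : ∀ V : D → ℝ, P.val lam (2 * B) (S - r) (K ∪ D) (Y.k (T.kl D (ext D V)))
      (Y.G (T.kl D (ext D V))) ≤ 2 * Real.exp (2 * lam) * F V := by
    intro V
    have h3 := hu3 V
    obtain ⟨h4, h5⟩ := hrun.en V
    have hyA : P.y (K ∪ D) (Y.k (T.kl D (ext D V))) (Y.G (T.kl D (ext D V))) = A V := by
      rw [hA]
      change P.y (K ∪ D) (Y.k (T.kl D (ext D V))) (Y.G (T.kl D (ext D V))) =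
        yn (fun c : D => (c : X)) P.cut (P.R \ K) (kp P.s) (Gm (P.s, V)) P.o
      unfold yn Pha.y
      rw [hset, h4, h5]
    unfold Pha.val
    rw [hyA]
    have h6 : Real.exp (lam * (3 * A V - A V ^ 2 - 2) - lam * (S - r) / 20) =
        2 * (m * Real.exp (lam * (3 * A V - A V ^ 2 - 2))) := by
      rw [hm, sub_eq_add_neg, Real.exp_add]
      ring
    rw [h6]
    have h7 : m * Real.exp (lam * (3 * A V - A V ^ 2 - 2)) ≤ B := by
      have := mul_le_mul_of_nonneg_left (hφV V).2 hm0.le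
      linarith
    have h8 := mix (cu_mono h3) h7
    have h9 : F V = (1 - cu (P.ur K D (kp P.s) (Gm (P.s, V)) P.s)) *
        (m * Real.exp (lam * (3 * A V - A V ^ 2 - 2))) +
          B * cu (P.ur K D (kp P.s) (Gm (P.s, V)) P.s) := by
      rw [hF, hW]
    rw [← h9] at h8
    have h10 := mul_le_mul_of_nonneg_left h8 (Real.exp_pos (2 * lam)).le
    calc _ = 2 * (Real.exp (2 * lam) *
          ((1 - cu (P.u (K ∪ D) (Y.k (T.kl D (ext D V))) (Y.G (T.kl D (ext D V))))) *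
            (m * Real.exp (lam * (3 * A V - A V ^ 2 - 2))) +
              B * cu (P.u (K ∪ D) (Y.k (T.kl D (ext D V))) (Y.G (T.kl D (ext D V)))))) := by
          ring
      _ ≤ 2 * (Real.exp (2 * lam) * F V) := by linarith
      _ = _ := by ring
  -- the integral
  have hint : ∫ V, F V ∂(Measure.pi fun _ : D => gaussianReal 0 P.s.toNNReal) ≤
      ((1 - cu (P.u K (Y.k T) (Y.G T))) * φ0 + 2 * B * cu (P.u K (Y.k T) (Y.G T))) / 2 +
        B * P.bt := by
    have h1 : ∫ V, F V ∂(Measure.pi fun _ : D => gaussianReal 0 P.s.toNNReal) =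
        ∫ V, ((1 - cu (P.ur K D (kp P.s) (Gm (P.s, V)) P.s)) * (m * Real.exp (lam *
          (3 * yn (fun c : D => (c : X)) P.cut (P.R \ K) (kp P.s) (Gm (P.s, V)) P.o -
          yn (fun c : D => (c : X)) P.cut (P.R \ K) (kp P.s) (Gm (P.s, V)) P.o ^ 2 - 2))) +
          B * cu (P.ur K D (kp P.s) (Gm (P.s, V)) P.s))
          ∂(Measure.pi fun _ : D => gaussianReal 0 P.s.toNNReal) := by
      rw [hF, hW, hA]
    rw [h1]
    refine key.trans ?_
    have h2 : 3 * B * ∫ _t in (0 : ℝ)..P.s, P.bt / (3 * P.s) = B * P.bt := by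
      rw [intervalIntegral.integral_const, sub_zero, smul_eq_mul]
      field_simp
    rw [h2]
    linarith
  calc ∫⁻ V, ENNReal.ofReal (P.val lam (2 * B) (S - r) (K ∪ D) (Y.k (T.kl D (ext D V)))
          (Y.G (T.kl D (ext D V)))) ∂(Measure.pi fun _ : D => gaussianReal 0 P.s.toNNReal)
      ≤ ∫⁻ V, ENNReal.ofReal (2 * Real.exp (2 * lam) * F V)
          ∂(Measure.pi fun _ : D => gaussianReal 0 P.s.toNNReal) :=
        lintegral_mono fun V => ENNReal.ofReal_le_ofReal (hend V)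
    _ = ENNReal.ofReal (∫ V, 2 * Real.exp (2 * lam) * F V
          ∂(Measure.pi fun _ : D => gaussianReal 0 P.s.toNNReal)) := by
        rw [ofReal_integral_eq_lintegral_ofReal (hFi.const_mul _)
          (Eventually.of_forall fun V => mul_nonneg (by positivity) (hF0 V))]
    _ ≤ _ := by
        apply ENNReal.ofReal_le_ofReal
        rw [integral_const_mul]
        have h1 := mul_le_mul_of_nonneg_left hint
          (show 0 ≤ 2 * Real.exp (2 * lam) by positivity)
        refine h1.trans (le_of_eq ?_)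
        unfold Pha.val
        rw [← hy0, hφ0]
        ring

end Pool.Agent.KIL.H20
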